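import Pool.Agent.Results.MP_a16b96_lc.UniversallyMeagreNotPMSigma
import Pool.Agent.H65R4.MixB
import Pool.Agent.Y40.PM.Scheme

/-!
ZFC proves that the classes of countably perfectly meager sets and of universally meager sets
differ in every uncountable Polish space, in particular in every nonempty perfect Polish space.
For a Polish space `X` the two classes of subsets of `X` coincide if and only if `X` is countable.
Moreover every uncountable Borel subset of a Polish space `X` contains a set which is universally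
meager, not countably perfectly meager in `X`, and has the least size of a nonmeager set.
-/

set_option autoImplicit false

open Set Filter Topology Cardinal

namespace Pool.Agent.Results.MP_a16b96_lc.UncountablePolish

open Pool.Agent.H65R4
open Pool.Agent.Results.MP_a16b96_lc.UniversallyMeagreNotPMSigma

/-- The sizes of the nonmeager subsets of perfect Polish spaces. -/
def nonMeagerSizes : Set Cardinal.{0} :=
  {κ | ∃ (Y : Type) (_ : TopologicalSpace Y) (_ : PolishSpace Y),
    NoIsolated Y ∧ ∃ T : Set Y, ¬ IsMeagre T ∧ #T = κ}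

/-- The least size of a nonmeager subset of a perfect Polish space. -/
noncomputable def nonM : Cardinal.{0} := sInf nonMeagerSizes

theorem nonM_lt {Y : Type} [TopologicalSpace Y] [PolishSpace Y] (hY : NoIsolated Y) (T : Set Y)
    (hT : #T < nonM) : IsMeagre T := by
  by_contra hcon
  exact absurd (csInf_le' (show #T ∈ nonMeagerSizes from
    ⟨Y, inferInstance, inferInstance, hY, T, hcon, rfl⟩)) (not_le.2 hT)

instance cantor_polish : PolishSpace (ℕ → Bool) := by
  have : PolishSpace Bool := inferInstance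
  infer_instance

theorem cantor_noIsolated : NoIsolated (ℕ → Bool) := by
  intro x hx
  obtain ⟨n, hn⟩ := Pool.Agent.Y40.PM.exists_cyl hx (mem_singleton x)
  have h1 := hn n le_rfl (fun i => if i = n then !(x n) else x i)
    (Pool.Agent.Y40.PM.pre_congr _ _ _ fun i hi => by simp [Nat.ne_of_lt hi])
  have h2 := congrFun (mem_singleton_iff.1 h1) n
  simp at h2

/-- The least size of a nonmeager set is attained in the Cantor space. -/
theorem exists_cantor : ∃ T : Set (ℕ → Bool), ¬ IsMeagre T ∧ #T = nonM := by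
  have hSne : nonMeagerSizes.Nonempty := by
    refine ⟨#(univ : Set (ℕ → Bool)), (ℕ → Bool), inferInstance, inferInstance,
      cantor_noIsolated, univ, ?_, rfl⟩
    exact not_isMeagre_of_isOpen isOpen_univ univ_nonempty
  obtain ⟨Z, tZ, pZ, hiZ, T, hT, hTκ⟩ := csInf_mem hSne
  haveI : Nonempty Z := (nonempty_of_not_isMeagre hT).to_type
  obtain ⟨φ, hφ⟩ := Pool.Agent.Y40.PM.exists_cat_map Z hiZ
  have h1 : ¬ IsMeagre (φ '' T) := fun h => hT ((hφ _ h).mono (subset_preimage_image φ T))
  refine ⟨φ '' T, h1, le_antisymm ?_ ?_⟩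
  · exact Cardinal.mk_image_le.trans hTκ.le
  · exact csInf_le' ⟨(ℕ → Bool), inferInstance, inferInstance, cantor_noIsolated, φ '' T, h1, rfl⟩

theorem aleph0_le_nonM : ℵ₀ ≤ nonM := by
  obtain ⟨T, hT, hTκ⟩ := exists_cantor
  by_contra hcon
  push Not at hcon
  rw [← hTκ, Cardinal.lt_aleph0_iff_set_finite] at hcon
  exact hT (countable_meagre cantor_noIsolated hcon.countable)

/-- A continuous injection of `W × Z` into the Cantor space, for `W = ℕ → ℕ → Bool` and
`Z = ℕ → Bool`. -/
theorem exists_inj : ∃ j : (ℕ → ℕ → Bool) × (ℕ → Bool) → (ℕ → Bool),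
    Continuous j ∧ Function.Injective j := by
  refine ⟨fun p n => if n % 2 = 0 then p.2 (n / 2) else
    p.1 (Nat.unpair (n / 2)).1 (Nat.unpair (n / 2)).2, ?_, ?_⟩
  · refine continuous_pi fun n => ?_
    by_cases h : n % 2 = 0
    · simp only [h, if_true]; fun_prop
    · simp only [h, if_false]
      exact (continuous_apply _).comp ((continuous_apply _).comp continuous_fst)
  · rintro ⟨w, z⟩ ⟨w', z'⟩ h
    refine Prod.ext ?_ ?_
    · funext a b
      have h1 := congrFun h (2 * Nat.pair a b + 1)
      have h2 : (2 * Nat.pair a b + 1) % 2 = 1 := by omega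
      have h3 : (2 * Nat.pair a b + 1) / 2 = Nat.pair a b := by omega
      simpa [h2, h3] using h1
    · funext a
      have h1 := congrFun h (2 * a)
      have h2 : (2 * a) % 2 = 0 := by omega
      have h3 : (2 * a) / 2 = a := by omega
      simpa [h2, h3] using h1

/-- An uncountable Borel set contains a homeomorphic copy of the Cantor space. -/
theorem exists_copy (X : Type) [TopologicalSpace X] [PolishSpace X] (B : Set X)
    (hB : @MeasurableSet X (borel X) B) (hunc : ¬ B.Countable) :
    ∃ f : (ℕ → Bool) → X, range f ⊆ B ∧ Continuous f ∧ Function.Injective f := by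
  letI : MeasurableSpace X := borel X
  haveI : BorelSpace X := ⟨rfl⟩
  obtain ⟨t', ht', hp, hc, _⟩ := MeasurableSet.isClopenable hB
  obtain ⟨f, h1, h2, h3⟩ := @IsClosed.exists_nat_bool_injection_of_not_countable X t' hp B hc hunc
  exact ⟨f, h1, continuous_le_rng ht' h2, h3⟩

/-- The main construction. -/
theorem core (X : Type) [TopologicalSpace X] [PolishSpace X] (B : Set X)
    (hB : @MeasurableSet X (borel X) B) (hunc : ¬ B.Countable) :
    ∃ A : Set X, A ⊆ B ∧ #A = nonM ∧ UniversallyMeager A ∧ ¬ CountablyPerfectlyMeager A := by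
  classical
  obtain ⟨f₀, hf₀B, hf₀c, hf₀i⟩ := exists_copy X B hB hunc
  obtain ⟨j₀, hj₀c, hj₀i⟩ := exists_inj
  let W : Type := ℕ → ℕ → Bool
  let Z : Type := ℕ → Bool
  let ι : W × Z → X := fun p => f₀ (j₀ p)
  have hιc : Continuous ι := hf₀c.comp hj₀c
  have hιi : Function.Injective ι := hf₀i.comp hj₀i
  have hιB : ∀ p, ι p ∈ B := fun p => hf₀B ⟨_, rfl⟩
  have hiZ : NoIsolated Z := cantor_noIsolated
  obtain ⟨T, hT, hTκ⟩ := exists_cantor
  have hℵ := aleph0_le_nonM
  -- indices
  let I : Type := nonM.ord.ToType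
  have hI : #I = nonM := by simp [I]
  obtain ⟨e⟩ : Nonempty (I ≃ T) := Cardinal.eq.1 (hI.trans hTκ.symm)
  have hIic : ∀ ξ : I, #(Iic ξ) < nonM := by
    intro ξ
    have h1 : #(Iio ξ) < nonM := by
      have := Cardinal.mk_Iio_lt ξ (by simp [I])
      rwa [hI] at this
    have h2 : (Iic ξ : Set I) = insert ξ (Iio ξ) := Iio_insert.symm
    rw [h2]
    refine (Cardinal.mk_insert_le).trans_lt ?_
    exact Cardinal.add_lt_of_lt hℵ h1 (Cardinal.one_lt_aleph0.trans_le hℵ)
  obtain ⟨M, hMm, hMs, hMu⟩ := exists_universal Z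
  obtain ⟨h, hmono, hunb⟩ := exists_h Z hiZ
  have hc : ∀ ξ : I, ∃ c : ℕ → Bool, ∀ η ≤ ξ, (c, (e η : Z)) ∈ M := by
    intro ξ
    have h1 : IsMeagre ((fun η : I => (e η : Z)) '' Iic ξ) :=
      nonM_lt hiZ _ (Cardinal.mk_image_le.trans_lt (hIic ξ))
    obtain ⟨c, hc⟩ := hMu _ h1
    exact ⟨c, fun η hη => hc _ ⟨η, hη, rfl⟩⟩
  choose c hc using hc
  -- the set
  let a : I × I → W × Z := fun p => (mixB (h (e p.1)) (c (max p.1 p.2)), (e p.2 : Z))
  have hdist : ∀ q : W, ∀ z : Z, ∀ U : Set (W × Z), IsOpen U → (q, z) ∈ U →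
      ∃ z', (q, z') ∈ U ∧ z' ≠ z := by
    intro q z U hU hqz
    by_contra hcon
    push Not at hcon
    have h1 : {z' | (q, z') ∈ U} = {z} := by
      ext z'
      exact ⟨fun hz => hcon z' hz, fun hz => by rw [mem_singleton_iff.1 hz]; exact hqz⟩
    exact hiZ z (h1 ▸ hU.preimage (by fun_prop : Continuous fun z' : Z => (q, z')))
  -- the decoding
  letI mX : MeasurableSpace X := borel X
  haveI bX : BorelSpace X := ⟨rfl⟩
  have hιm : MeasurableEmbedding ι := hιc.measurableEmbedding hιi
  obtain ⟨dec, hdecm, hdec⟩ := hιm.exists_measurable_extend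
    (g := fun p : W × Z => decBC p.1) (measurable_decBC.comp measurable_fst)
    (fun _ => (inferInstance : Nonempty (ℕ → Bool)))
  refine ⟨ι '' range a, ?_, ?_, ?_, ?_⟩
  · rintro _ ⟨p, _, rfl⟩
    exact hιB p
  · rw [Cardinal.mk_image_eq hιi]
    refine le_antisymm ?_ ?_
    · refine Cardinal.mk_range_le.trans ?_
      rw [Cardinal.mk_prod, Cardinal.lift_id, hI]
      exact (Cardinal.mul_eq_self hℵ).le
    · obtain ⟨i₀⟩ : Nonempty I := by
        rw [← Cardinal.mk_ne_zero_iff, hI]
        exact (Cardinal.aleph0_pos.trans_le hℵ).ne'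
      have h1 : T ⊆ Prod.snd '' range a := by
        intro z hz
        refine ⟨a (i₀, e.symm ⟨z, hz⟩), ⟨_, rfl⟩, ?_⟩
        show ((e (e.symm ⟨z, hz⟩) : T) : Z) = z
        rw [Equiv.apply_symm_apply]
      rw [← hTκ]
      exact (Cardinal.mk_le_mk_of_subset h1).trans Cardinal.mk_image_le
  · -- universally meager
    intro Y _ _ hY f hf hf'
    letI : MeasurableSpace Y := borel Y
    haveI : BorelSpace Y := ⟨rfl⟩
    have hf1 : Measurable fun p : Y × Z => dec (f.symm p.1) :=
      (hdecm.comp (show Measurable f.symm from hf')).comp measurable_fst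
    let D : Set (Y × Z) := {p | (dec (f.symm p.1), p.2) ∈ M}
    have hD : MeasurableSet D := hMm.preimage (hf1.prodMk measurable_snd)
    have hKU := ku_borel (B := D) hD.baireMeasurableSet (fun y => hMs (dec (f.symm y)))
    obtain ⟨γ, hγ⟩ : ∃ γ : I, IsMeagre {y : Y | (y, (e γ : Z)) ∈ D} := by
      by_contra hcon
      push Not at hcon
      refine hT ?_
      rw [IsMeagre]
      filter_upwards [hKU] with z hz hzT
      have := hcon (e.symm ⟨z, hzT⟩)
      rw [Equiv.apply_symm_apply] at this
      exact this hz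
    have hsmall : IsMeagre (f '' (ι '' (a '' (Iic γ ×ˢ Iic γ)))) := by
      refine nonM_lt hY _ (Cardinal.mk_image_le.trans_lt (Cardinal.mk_image_le.trans_lt
        (Cardinal.mk_image_le.trans_lt ?_)))
      rw [Cardinal.mk_setProd]
      exact Cardinal.mul_lt_of_lt hℵ (hIic γ) (hIic γ)
    refine (hγ.union hsmall).mono ?_
    rintro _ ⟨_, ⟨_, ⟨p, rfl⟩, rfl⟩, rfl⟩
    by_cases hp : max p.1 p.2 ≤ γ
    · right
      exact mem_image_of_mem _ (mem_image_of_mem _ (mem_image_of_mem _
        ⟨(le_max_left _ _).trans hp, (le_max_right _ _).trans hp⟩))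
    · left
      show (dec (f.symm (f (ι (a p)))), (e γ : Z)) ∈ M
      rw [Equiv.symm_apply_apply]
      have h1 : dec (ι (a p)) = decBC (a p).1 := congrFun hdec (a p)
      rw [h1]
      show (decBC (mixB _ _), (e γ : Z)) ∈ M
      rw [decBC_mixB]
      exact hc _ _ (not_le.1 hp).le
  · -- not countably perfectly meager
    intro hPM
    obtain ⟨q, hq⟩ := exists_surjective_nat (Σ n : ℕ, (Fin n → ℕ))
    obtain ⟨F, ⟨C, hC, rfl⟩, hAF, hF⟩ := hPM (fun n => ι '' {p | p.1 = dsqB (q n)}) (by
      intro n
      refine ⟨?_, ?_, ?_⟩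
      · obtain ⟨z⟩ := (inferInstance : Nonempty Z)
        exact ⟨ι (dsqB (q n), z), mem_image_of_mem _ rfl⟩
      · have h1 : IsClosed {p : W × Z | p.1 = dsqB (q n)} := isClosed_eq continuous_fst continuous_const
        exact (h1.isCompact.image hιc).isClosed
      · rintro _ ⟨⟨w, z⟩, hw, rfl⟩ U hU hwz
        obtain ⟨z', hz', hne⟩ := hdist w z _ (hU.preimage hιc) hwz
        exact ⟨ι (w, z'), mem_image_of_mem _ hw, hz',
          fun h => hne (Prod.ext_iff.1 (hιi h)).2⟩)
    have hsec : ∀ n, IsMeagre {z : Z | ι (dsqB (q n), z) ∈ ⋃ k, C k} := by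
      intro n
      let P : Set X := ι '' {p | p.1 = dsqB (q n)}
      let φ₀ : Z → P := fun z => ⟨ι (dsqB (q n), z), mem_image_of_mem _ rfl⟩
      have hφc : Continuous φ₀ := by
        refine Continuous.subtype_mk ?_ _
        exact hιc.comp (by fun_prop : Continuous fun z : Z => ((dsqB (q n), z) : W × Z))
      have hφb : Function.Bijective φ₀ := by
        constructor
        · intro z z' hz
          exact (Prod.ext_iff.1 (hιi (Subtype.ext_iff.1 hz))).2
        · rintro ⟨_, ⟨⟨w, z⟩, hw, rfl⟩⟩
          have hw' : w = dsqB (q n) := hw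
          subst hw'
          exact ⟨z, rfl⟩
      let φ : Z ≃ₜ P := Continuous.homeoOfEquivCompactToT2 (f := Equiv.ofBijective φ₀ hφb) hφc
      exact (hF n).preimage_of_isOpenMap φ.continuous φ.isOpenMap
    refine hT ((isMeagre_iUnion hsec).mono ?_)
    intro y hy
    by_contra hyn
    simp only [mem_iUnion, mem_ofPred_eq, not_exists] at hyn
    obtain ⟨j, hj⟩ := e.surjective ⟨y, hy⟩
    -- the closed sets of first coordinates miss the countable set
    have hb : ∀ k, ∃ g : ℕ → ℕ, ∀ x : ℕ → ℕ, Monotone x → ∀ c,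
        mixB x c ∈ {w : W | ι (w, y) ∈ C k} → ∀ n, x n ≤ g n := by
      intro k
      refine mixB_bound ((hC k).preimage (hιc.comp
        (by fun_prop : Continuous fun w : W => ((w, y) : W × Z)))) ?_
      intro p hp
      obtain ⟨n, rfl⟩ := hq p
      exact hyn n k hp
    choose g hg using hb
    have hcov : T ⊆ ⋃ k, {z | ∀ n, h z n ≤ g k n} := by
      intro z hz
      obtain ⟨i, hi⟩ := e.surjective ⟨z, hz⟩
      have h1 : ι (a (i, j)) ∈ ⋃ k, C k := hAF (mem_image_of_mem _ ⟨(i, j), rfl⟩)
      obtain ⟨k, hk⟩ := mem_iUnion.1 h1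
      have hei : (e i : Z) = z := by rw [hi]
      have hej : (e j : Z) = y := by rw [hj]
      refine mem_iUnion.2 ⟨k, fun n => hg k (h z) (hmono z) (c (max i j)) ?_ n⟩
      show ι (mixB (h z) (c (max i j)), y) ∈ C k
      have h2 : a (i, j) = (mixB (h (e i)) (c (max i j)), (e j : Z)) := rfl
      rw [← hei, ← hej, ← h2]
      exact hk
    exact hT ((isMeagre_iUnion fun k => hunb (g k)).mono hcov)

/-- A nonempty perfect subset of a Polish space is uncountable. -/
theorem perfectSet_not_countable {X : Type} [TopologicalSpace X] [PolishSpace X] {P : Set X}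
    (hP : PerfectSet P) : ¬ P.Countable := by
  intro hc
  haveI : PolishSpace P := hP.2.1.polishSpace
  haveI : Nonempty P := hP.1.to_subtype
  haveI : Countable P := hc.to_subtype
  have hi : NoIsolated P := by
    intro x hx
    obtain ⟨U, hU, hUx⟩ := isOpen_induced_iff.1 hx
    have hxU : (x : X) ∈ U := by
      have : x ∈ Subtype.val ⁻¹' U := by rw [hUx]; exact mem_singleton x
      exact this
    obtain ⟨y, hyP, hyU, hyx⟩ := hP.2.2 x x.2 U hU hxU
    have h1 : (⟨y, hyP⟩ : P) ∈ ({x} : Set P) := by rw [← hUx]; exact hyU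
    exact hyx (congrArg Subtype.val (mem_singleton_iff.1 h1))
  exact not_isMeagre_of_isOpen isOpen_univ univ_nonempty
    (countable_meagre hi (to_countable (univ : Set P)))

theorem perfect_space_not_countable {X : Type} [TopologicalSpace X] [PolishSpace X] [Nonempty X]
    (hX : NoIsolated X) : ¬ (univ : Set X).Countable := by
  intro hc
  exact not_isMeagre_of_isOpen isOpen_univ univ_nonempty (countable_meagre hX hc)

/-- **In ZFC, `PM_σ` and `UM` differ in every uncountable Polish space.** Let `X` be a Polish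
space.

* Every uncountable Borel subset `B` of `X` contains a set which is universally meager, is not
  countably perfectly meager in `X`, and has the least size of a nonmeager set.
* If `X` is nonempty and perfect, then `X` has a universally meager subset which is not countably
  perfectly meager in `X`.
* The two classes of subsets of `X` coincide if and only if `X` is countable. -/
theorem result (X : Type) [TopologicalSpace X] [PolishSpace X] :
    (∀ B : Set X, @MeasurableSet X (borel X) B → ¬ B.Countable →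
      ∃ A : Set X, A ⊆ B ∧ #A = nonM ∧ UniversallyMeager A ∧ ¬ CountablyPerfectlyMeager A) ∧
    (Nonempty X → NoIsolated X →
      ∃ A : Set X, UniversallyMeager A ∧ ¬ CountablyPerfectlyMeager A) ∧
    ((∀ A : Set X, UniversallyMeager A ↔ CountablyPerfectlyMeager A) ↔ Countable X) := by
  refine ⟨core X, ?_, ?_, ?_⟩
  · intro _ hX
    obtain ⟨A, _, _, h1, h2⟩ := core X univ (@MeasurableSet.univ X (borel X))
      (perfect_space_not_countable hX)
    exact ⟨A, h1, h2⟩
  · intro hall
    by_contra hunc
    obtain ⟨A, _, _, h1, h2⟩ := core X univ (@MeasurableSet.univ X (borel X))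
      (fun h => hunc (countable_univ_iff.1 h))
    exact h2 ((hall A).1 h1)
  · intro hcX A
    constructor
    · intro _ P hP
      exact absurd (to_countable (P 0)) (perfectSet_not_countable (hP 0))
    · intro _ Y _ _ hY f _ _
      exact countable_meagre hY ((to_countable A).image f)

end Pool.Agent.Results.MP_a16b96_lc.UncountablePolish
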